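import Mathlib
import Pool.Agent.X314.Clausen
import Pool.Agent.X314.Cartier

/-!
# MP_07dc7c_nt, Q1: `∑_{n<p} (-1)^n (42n+37) a(n) ≡ p (21 (p/7) + 16) (mod p²)`

* `∑_n (-1)^n (42n+37) a(n) = ∑_k (-16)^k C(2k,k)² (21 V(2k) + 2 (21k+8) W(2k))` with
  `W(m) = ∑_{n<p} (-1)^n C(n,m)²` and `V(m) = ∑_{n<p} (-1)^n (2n+1-m) C(n,m)²`.
* Telescoping: `(-16)^k W(2k) ≡ C(2k,k)` and `(-1)^k C(2k,k) V(2k) ≡ p (mod p²)` for `2k < p`.
* `∑_{k<n} (21k+8) C(2k,k)³ = 4 n C(2n,n) ∑_{k<n} C(n+k-1,k)²`, which is `8p` modulo `p²` for `n = p`.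
* `∑_{k<p} 16^k C(2k,k) ≡ (-63)^((p-1)/2) (mod p)`.
-/

set_option autoImplicit false
set_option linter.unusedSectionVars false

open Finset

namespace Pool.Agent.Results.MP_07dc7c_nt.Weighted

lemma dvd_cb {p : ℕ} (hp : p.Prime) {k : ℕ} (hk : k < p) (h2 : p ≤ 2 * k) :
    p ∣ (2 * k).choose k := by
  have h := hp.dvd_choose_add hk hk (by omega)
  rwa [← two_mul] at h


/-- the sequence `a(n)` -/
def a (n : ℕ) : ℤ :=
  ∑ k ∈ range (n + 1), (-16) ^ k * (n.choose k : ℤ) ^ 2 * ((n - k).choose k : ℤ) ^ 2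

/-- `W(N,m) = ∑_{n<N} (-1)^n C(n,m)²` -/
def W (N m : ℕ) : ℤ := ∑ n ∈ range N, (-1) ^ n * (n.choose m : ℤ) ^ 2

lemma W_rec (m N : ℕ) : ((m : ℤ) + 2) * ((m + 1) * W N m + 4 * (m + 2) * W N (m + 2))
    = (-1) ^ N * (N.choose (m + 1) : ℤ) ^ 2
      * (-2 * N ^ 2 + (6 * m + 8) * N - (m + 1) * (5 * m + 8)) := by
  induction N with
  | zero => simp [W]
  | succ n ih =>
    have e1 : W (n + 1) m = W n m + (-1) ^ n * (n.choose m : ℤ) ^ 2 := by
      rw [W, Finset.sum_range_succ]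
      rfl
    have e2 : W (n + 1) (m + 2) = W n (m + 2) + (-1) ^ n * (n.choose (m + 2) : ℤ) ^ 2 := by
      rw [W, Finset.sum_range_succ]
      rfl
    have r1 : (n.choose (m + 1) : ℤ) * (m + 1) = n.choose m * ((n : ℤ) - m) := by
      rcases le_or_gt m n with h | h
      · have := Nat.choose_succ_right_eq n m
        have h2 := congrArg (Nat.cast : ℕ → ℤ) this
        rw [Nat.cast_mul, Nat.cast_mul, Nat.cast_sub h] at h2
        push_cast at h2
        exact h2
      · rw [Nat.choose_eq_zero_of_lt h, Nat.choose_eq_zero_of_lt (by omega)]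
        simp
    have r2 : (n.choose (m + 2) : ℤ) * (m + 2) = n.choose (m + 1) * ((n : ℤ) - m - 1) := by
      rcases le_or_gt (m + 1) n with h | h
      · have := Nat.choose_succ_right_eq n (m + 1)
        have h2 := congrArg (Nat.cast : ℕ → ℤ) this
        rw [Nat.cast_mul, Nat.cast_mul, Nat.cast_sub h] at h2
        push_cast at h2
        linear_combination h2
      · rw [Nat.choose_eq_zero_of_lt h, Nat.choose_eq_zero_of_lt (by omega)]
        simp
    have r3 : ((n + 1).choose (m + 1) : ℤ) = n.choose m + n.choose (m + 1) := by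
      rw [Nat.choose_succ_succ]
      push_cast
      ring
    rw [e1, e2, r3, pow_succ]
    push_cast
    linear_combination ih + (-1) ^ n * ((2 * ((n : ℤ) - 2 * m - 2) * n.choose m
      + (4 * n - 6 * m - 6) * n.choose (m + 1)) * r1
      + 4 * ((n.choose (m + 2) : ℤ) * (m + 2) + n.choose (m + 1) * ((n : ℤ) - m - 1)) * r2)

lemma W_zero (h : ℕ) : W (2 * h + 1) 0 = 1 := by
  have : W (2 * h + 1) 0 = ∑ n ∈ range (2 * h + 1), (-1 : ℤ) ^ n := by
    rw [W]
    simp
  rw [this, neg_one_geom_sum, if_neg]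
  rw [Nat.not_even_iff_odd]
  exact ⟨h, rfl⟩

lemma W_mod {p : ℕ} (hp : p.Prime) (h : ℕ) (hh : 2 * h + 1 = p) (k : ℕ) (hk : 2 * k < p) :
    ((p : ℤ) ^ 2) ∣ (-16) ^ k * W p (2 * k) - ((2 * k).choose k : ℤ) := by
  induction k with
  | zero =>
    have : W p (2 * 0) = 1 := by
      rw [← hh]
      exact W_zero h
    rw [this]
    simp
  | succ k ih =>
    have ih' := ih (by omega)
    have hcop : ∀ m : ℕ, 0 < m → m < p → IsCoprime ((p : ℤ) ^ 2) (m : ℤ) := by
      intro m hm hmp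
      apply IsCoprime.pow_left
      rw [Nat.isCoprime_iff_coprime, Nat.Prime.coprime_iff_not_dvd hp]
      intro hd
      exact absurd (Nat.le_of_dvd hm hd) (by omega)
    have h1 := W_rec (2 * k) p
    have h2 : ((p : ℤ) ^ 2) ∣ (((2 * k + 2 : ℕ) : ℤ)) *
        ((2 * k + 1) * W p (2 * k) + 4 * (2 * k + 2) * W p (2 * k + 2)) := by
      have h3 : ((p : ℤ) ^ 2) ∣ (p.choose (2 * k + 1) : ℤ) ^ 2 := by
        apply pow_dvd_pow_of_dvd
        exact_mod_cast hp.dvd_choose_self (by omega) (by omega)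
      have h4 : (((2 * k + 2 : ℕ) : ℤ)) *
          ((2 * k + 1) * W p (2 * k) + 4 * (2 * k + 2) * W p (2 * k + 2))
          = (p.choose (2 * k + 1) : ℤ) ^ 2 * ((-1) ^ p
            * (-2 * p ^ 2 + (6 * (2 * k) + 8) * p - (2 * k + 1) * (5 * (2 * k) + 8))) := by
        push_cast at h1 ⊢
        linear_combination h1
      rw [h4]
      exact Dvd.dvd.mul_right h3 _
    have h5 := (hcop (2 * k + 2) (by omega) (by omega)).dvd_of_dvd_mul_left h2
    have h6 : ((k : ℤ) + 1) * ((2 * (k + 1)).choose (k + 1) : ℤ)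
        = 2 * (2 * k + 1) * ((2 * k).choose k : ℤ) := by
      have := congrArg (Nat.cast : ℕ → ℤ) (Pool.Agent.X314.Clausen.cb_rec k)
      push_cast at this
      exact this
    have h7 : ((p : ℤ) ^ 2) ∣ ((k + 1 : ℕ) : ℤ) * ((-16) ^ (k + 1) * W p (2 * (k + 1))
        - ((2 * (k + 1)).choose (k + 1) : ℤ)) := by
      have h8 : ((k + 1 : ℕ) : ℤ) * ((-16) ^ (k + 1) * W p (2 * (k + 1))
        - ((2 * (k + 1)).choose (k + 1) : ℤ))
        = ((2 * k + 1) * W p (2 * k) + 4 * (2 * k + 2) * W p (2 * k + 2)) * ((-2) * (-16) ^ k)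
          + ((-16) ^ k * W p (2 * k) - ((2 * k).choose k : ℤ)) * (2 * (2 * k + 1)) := by
        rw [show 2 * (k + 1) = 2 * k + 2 by ring] at h6 ⊢
        push_cast
        rw [pow_succ]
        linear_combination (-1) * h6
      rw [h8]
      exact dvd_add (Dvd.dvd.mul_right h5 _) (Dvd.dvd.mul_right ih' _)
    exact (hcop (k + 1) (by omega) (by omega)).dvd_of_dvd_mul_left h7

/-- `V(N,m) = ∑_{n<N} (-1)^n (2n+1-m) C(n,m)²` -/
def V (N m : ℕ) : ℤ := ∑ n ∈ range N, (-1) ^ n * (2 * (n : ℤ) + 1 - m) * (n.choose m : ℤ) ^ 2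

/-- the polynomial of the telescoping -/
def sg (m n : ℤ) : ℤ := -4 * n ^ 3 + (14 * m + 20) * n ^ 2 - 4 * (m + 1) * (4 * m + 7) * n
  + (5 * m ^ 3 + 18 * m ^ 2 + 18 * m + 4)

lemma V_rec (m N : ℕ) : ((m : ℤ) + 2) ^ 2 * (4 * (m + 1) * V N (m + 2) + (m + 2) * V N m)
    = (-1) ^ N * ((m + 1) * sg m N) * (N.choose (m + 1) : ℤ) ^ 2 := by
  induction N with
  | zero => simp [V]
  | succ n ih =>
    have e1 : V (n + 1) m = V n m + (-1) ^ n * (2 * (n : ℤ) + 1 - m) * (n.choose m : ℤ) ^ 2 := by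
      rw [V, Finset.sum_range_succ]
      rfl
    have e2 : V (n + 1) (m + 2) = V n (m + 2)
        + (-1) ^ n * (2 * (n : ℤ) + 1 - (m + 2 : ℕ)) * (n.choose (m + 2) : ℤ) ^ 2 := by
      rw [V, Finset.sum_range_succ]
      rfl
    have r1 : (n.choose (m + 1) : ℤ) * (m + 1) = n.choose m * ((n : ℤ) - m) := by
      rcases le_or_gt m n with h | h
      · have := Nat.choose_succ_right_eq n m
        have h2 := congrArg (Nat.cast : ℕ → ℤ) this
        rw [Nat.cast_mul, Nat.cast_mul, Nat.cast_sub h] at h2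
        push_cast at h2
        exact h2
      · rw [Nat.choose_eq_zero_of_lt h, Nat.choose_eq_zero_of_lt (by omega)]
        simp
    have r2 : (n.choose (m + 2) : ℤ) * (m + 2) = n.choose (m + 1) * ((n : ℤ) - m - 1) := by
      rcases le_or_gt (m + 1) n with h | h
      · have := Nat.choose_succ_right_eq n (m + 1)
        have h2 := congrArg (Nat.cast : ℕ → ℤ) this
        rw [Nat.cast_mul, Nat.cast_mul, Nat.cast_sub h] at h2
        push_cast at h2
        linear_combination h2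
      · rw [Nat.choose_eq_zero_of_lt h, Nat.choose_eq_zero_of_lt (by omega)]
        simp
    have r3 : ((n + 1).choose (m + 1) : ℤ) = n.choose m + n.choose (m + 1) := by
      rw [Nat.choose_succ_succ]
      push_cast
      ring
    rw [e1, e2, r3, pow_succ]
    unfold sg at ih ⊢
    push_cast
    linear_combination ih + (-1) ^ n * (((4 * ((m : ℤ) + 1) * n ^ 2
      - (10 * m ^ 2 + 18 * m + 8) * n + (4 * m ^ 3 + 2 * m ^ 2 - 16 * m - 16)) * n.choose m
      + (8 * ((m : ℤ) + 1) * n ^ 2 - (16 * m ^ 2 + 28 * m + 12) * n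
      + (6 * m ^ 3 + 8 * m ^ 2 - 6 * m - 8)) * n.choose (m + 1)) * r1
      + 4 * ((m : ℤ) + 1) * (2 * n - 1 - m) * ((n.choose (m + 2) : ℤ) * (m + 2)
      + n.choose (m + 1) * ((n : ℤ) - m - 1)) * r2)

lemma V_zero (N : ℕ) : V N 0 = -(-1) ^ N * N := by
  induction N with
  | zero => simp [V]
  | succ n ih =>
    have e1 : V (n + 1) 0 = V n 0 + (-1) ^ n * (2 * (n : ℤ) + 1 - (0 : ℕ)) * (n.choose 0 : ℤ) ^ 2 := by
      rw [V, Finset.sum_range_succ]
      rfl
    rw [e1, ih, pow_succ]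
    push_cast
    simp
    ring

lemma cop {p : ℕ} (hp : p.Prime) (m : ℕ) (hm : 0 < m) (hmp : m < p) :
    IsCoprime ((p : ℤ) ^ 2) (m : ℤ) := by
  apply IsCoprime.pow_left
  rw [Nat.isCoprime_iff_coprime, Nat.Prime.coprime_iff_not_dvd hp]
  intro hd
  exact absurd (Nat.le_of_dvd hm hd) (by omega)

lemma V_mod {p : ℕ} (hp : p.Prime) (h : ℕ) (hh : 2 * h + 1 = p) (k : ℕ) (hk : 2 * k < p) :
    ((p : ℤ) ^ 2) ∣ (-1) ^ k * ((2 * k).choose k : ℤ) * V p (2 * k) - p := by
  induction k with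
  | zero =>
    have : V p (2 * 0) = p := by
      rw [mul_zero, V_zero, ← hh, pow_succ, pow_mul]
      simp
    rw [this]
    simp
  | succ k ih =>
    have ih' := ih (by omega)
    have h1 := V_rec (2 * k) p
    have h2 : ((p : ℤ) ^ 2) ∣ (((2 * k + 2 : ℕ) : ℤ)) * ((((2 * k + 2 : ℕ) : ℤ)) *
        (4 * (2 * k + 1) * V p (2 * k + 2) + (2 * k + 2) * V p (2 * k))) := by
      have h3 : ((p : ℤ) ^ 2) ∣ (p.choose (2 * k + 1) : ℤ) ^ 2 := by
        apply pow_dvd_pow_of_dvd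
        exact_mod_cast hp.dvd_choose_self (by omega) (by omega)
      have h4 : (((2 * k + 2 : ℕ) : ℤ)) * ((((2 * k + 2 : ℕ) : ℤ)) *
          (4 * (2 * k + 1) * V p (2 * k + 2) + (2 * k + 2) * V p (2 * k)))
          = (p.choose (2 * k + 1) : ℤ) ^ 2 * ((-1) ^ p
            * ((2 * k + 1) * sg (2 * k) p)) := by
        push_cast at h1 ⊢
        linear_combination h1
      rw [h4]
      exact Dvd.dvd.mul_right h3 _
    have h5 := (cop hp (2 * k + 2) (by omega) (by omega)).dvd_of_dvd_mul_left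
      ((cop hp (2 * k + 2) (by omega) (by omega)).dvd_of_dvd_mul_left h2)
    have h6 : ((k : ℤ) + 1) * ((2 * (k + 1)).choose (k + 1) : ℤ)
        = 2 * (2 * k + 1) * ((2 * k).choose k : ℤ) := by
      have := congrArg (Nat.cast : ℕ → ℤ) (Pool.Agent.X314.Clausen.cb_rec k)
      push_cast at this
      exact this
    have h7 : ((p : ℤ) ^ 2) ∣ ((2 * k + 2 : ℕ) : ℤ) * ((-1) ^ (k + 1)
        * ((2 * (k + 1)).choose (k + 1) : ℤ) * V p (2 * (k + 1)) - p) := by
      have h8 : ((2 * k + 2 : ℕ) : ℤ) * ((-1) ^ (k + 1)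
        * ((2 * (k + 1)).choose (k + 1) : ℤ) * V p (2 * (k + 1)) - p)
        = (4 * (2 * k + 1) * V p (2 * k + 2) + (2 * k + 2) * V p (2 * k))
            * (-(-1) ^ k * ((2 * k).choose k : ℤ))
          + ((-1) ^ k * ((2 * k).choose k : ℤ) * V p (2 * k) - p) * (2 * k + 2) := by
        rw [show 2 * (k + 1) = 2 * k + 2 by ring] at h6 ⊢
        push_cast
        rw [pow_succ]
        linear_combination (-2 * (-1) ^ k * V p (2 * k + 2)) * h6
      rw [h8]
      exact dvd_add (Dvd.dvd.mul_right h5 _) (Dvd.dvd.mul_right ih' _)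
    exact (cop hp (2 * k + 2) (by omega) (by omega)).dvd_of_dvd_mul_left h7

lemma S_eq (p : ℕ) : ∑ n ∈ range p, (-1) ^ n * (42 * (n : ℤ) + 37) * a n
    = ∑ k ∈ range p, (-16) ^ k * ((2 * k).choose k : ℤ) ^ 2
      * (21 * V p (2 * k) + 2 * (21 * k + 8) * W p (2 * k)) := by
  have e1 : ∀ n ∈ range p, (-1) ^ n * (42 * (n : ℤ) + 37) * a n
      = ∑ k ∈ range p, (-16) ^ k * ((2 * k).choose k : ℤ) ^ 2
        * ((-1) ^ n * (42 * (n : ℤ) + 37) * (n.choose (2 * k) : ℤ) ^ 2) := by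
    intro n hn
    rw [Finset.mem_range] at hn
    rw [a, Finset.mul_sum]
    have e2 : ∀ k ∈ range (n + 1),
        (-1 : ℤ) ^ n * (42 * (n : ℤ) + 37) * ((-16) ^ k * (n.choose k : ℤ) ^ 2 * ((n - k).choose k : ℤ) ^ 2)
        = (-16) ^ k * ((2 * k).choose k : ℤ) ^ 2
          * ((-1) ^ n * (42 * (n : ℤ) + 37) * (n.choose (2 * k) : ℤ) ^ 2) := by
      intro k hk
      rw [Finset.mem_range] at hk
      have e3 : n.choose k * (n - k).choose k = n.choose (2 * k) * (2 * k).choose k := by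
        rcases le_or_gt (2 * k) n with h | h
        · rw [Nat.choose_mul (by omega), show 2 * k - k = k by omega]
        · rw [Nat.choose_eq_zero_of_lt h, Nat.choose_eq_zero_of_lt (show n - k < k by omega)]
          simp
      have e4 := congrArg (Nat.cast : ℕ → ℤ) e3
      push_cast at e4
      linear_combination ((-1) ^ n * (42 * (n : ℤ) + 37) * (-16) ^ k
        * ((n.choose k : ℤ) * ((n - k).choose k : ℤ)
        + (n.choose (2 * k) : ℤ) * ((2 * k).choose k : ℤ))) * e4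
    rw [Finset.sum_congr rfl e2]
    apply Finset.sum_subset
    · intro k hk
      rw [Finset.mem_range] at hk ⊢
      omega
    · intro k hk hk2
      rw [Finset.mem_range] at hk hk2
      rw [Nat.choose_eq_zero_of_lt (show n < 2 * k by omega)]
      simp
  rw [Finset.sum_congr rfl e1, Finset.sum_comm]
  refine Finset.sum_congr rfl fun k _ => ?_
  rw [← Finset.mul_sum]
  congr 1
  have hV : V p (2 * k) = ∑ n ∈ range p, (-1) ^ n * (2 * (n : ℤ) + 1 - (2 * k : ℕ))
    * (n.choose (2 * k) : ℤ) ^ 2 := rfl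
  have hW : W p (2 * k) = ∑ n ∈ range p, (-1) ^ n * (n.choose (2 * k) : ℤ) ^ 2 := rfl
  rw [hV, hW, Finset.mul_sum, Finset.mul_sum, ← Finset.sum_add_distrib]
  refine Finset.sum_congr rfl fun n _ => ?_
  push_cast
  ring

lemma S_mod {p : ℕ} (hp : p.Prime) (h : ℕ) (hh : 2 * h + 1 = p) :
    ((p : ℤ) ^ 2) ∣ ∑ n ∈ range p, (-1) ^ n * (42 * (n : ℤ) + 37) * a n
      - (21 * (p * ∑ k ∈ range p, 16 ^ k * ((2 * k).choose k : ℤ))
        + 2 * ∑ k ∈ range p, (21 * (k : ℤ) + 8) * ((2 * k).choose k : ℤ) ^ 3) := by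
  have e : ∑ n ∈ range p, (-1) ^ n * (42 * (n : ℤ) + 37) * a n
      - (21 * (p * ∑ k ∈ range p, 16 ^ k * ((2 * k).choose k : ℤ))
        + 2 * ∑ k ∈ range p, (21 * (k : ℤ) + 8) * ((2 * k).choose k : ℤ) ^ 3)
      = ∑ k ∈ range p, ((2 * k).choose k : ℤ) * (21 * 16 ^ k
          * ((-1) ^ k * ((2 * k).choose k : ℤ) * V p (2 * k) - p)
        + 2 * (21 * k + 8) * ((2 * k).choose k : ℤ)
          * ((-16) ^ k * W p (2 * k) - ((2 * k).choose k : ℤ))) := by
    rw [S_eq, Finset.mul_sum, Finset.mul_sum, Finset.mul_sum, ← Finset.sum_add_distrib,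
      ← Finset.sum_sub_distrib]
    refine Finset.sum_congr rfl fun k _ => ?_
    have : (-16 : ℤ) ^ k = 16 ^ k * (-1) ^ k := by
      rw [← mul_pow]
      norm_num
    rw [this]
    ring
  rw [e]
  apply Finset.dvd_sum
  intro k hk
  rw [Finset.mem_range] at hk
  by_cases h2 : 2 * k < p
  · apply Dvd.dvd.mul_left
    exact dvd_add (Dvd.dvd.mul_left (V_mod hp h hh k h2) _)
      (Dvd.dvd.mul_left (W_mod hp h hh k h2) _)
  · have h3 : (p : ℤ) ∣ ((2 * k).choose k : ℤ) := by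
      exact_mod_cast dvd_cb hp hk (by omega)
    rw [pow_two]
    apply mul_dvd_mul h3
    apply dvd_add
    · apply Dvd.dvd.mul_left
      apply dvd_sub _ (dvd_refl _)
      exact Dvd.dvd.mul_right (Dvd.dvd.mul_left h3 _) _
    · apply Dvd.dvd.mul_right
      exact Dvd.dvd.mul_left h3 _

/-- partial sums of the telescoping for `21k+8` -/
lemma partial21 (m j : ℕ) : 2 * (2 * (m : ℤ) + 3) * ∑ k ∈ range j, ((m + 1 + k).choose k : ℤ) ^ 2
    - (m + 1) * ∑ k ∈ range j, ((m + k).choose k : ℤ) ^ 2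
    = (2 * j + 3 * (m + 1)) * ((m + j).choose (m + 1) : ℤ) ^ 2 := by
  induction j with
  | zero => simp
  | succ j ih =>
    rw [Finset.sum_range_succ, Finset.sum_range_succ]
    have r1 : ((m + j).choose (m + 1) : ℤ) * (m + 1) = ((m + j).choose m : ℤ) * j := by
      have := congrArg (Nat.cast : ℕ → ℤ) (Nat.choose_succ_right_eq (m + j) m)
      rw [show m + j - m = j by omega] at this
      push_cast at this
      exact this
    have r2 : ((m + (j + 1)).choose (m + 1) : ℤ)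
        = ((m + j).choose m : ℤ) + ((m + j).choose (m + 1) : ℤ) := by
      rw [show m + (j + 1) = (m + j) + 1 by ring, Nat.choose_succ_succ]
      push_cast
      ring
    have r3 : ((m + 1 + j).choose j : ℤ)
        = ((m + j).choose m : ℤ) + ((m + j).choose (m + 1) : ℤ) := by
      rw [← r2]
      congr 1
      rw [show m + (j + 1) = m + 1 + j by ring, Nat.choose_symm_add]
    have r4 : ((m + j).choose j : ℤ) = ((m + j).choose m : ℤ) := by
      rw [Nat.choose_symm_add]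
    rw [r2, r3, r4]
    push_cast
    linear_combination ih + (2 * ((m + j).choose m : ℤ) + 4 * ((m + j).choose (m + 1) : ℤ)) * r1

lemma sum21 (m : ℕ) : ∑ k ∈ range (m + 1), (21 * (k : ℤ) + 8) * ((2 * k).choose k : ℤ) ^ 3
    = 4 * (m + 1) * ((2 * (m + 1)).choose (m + 1) : ℤ)
      * ∑ k ∈ range (m + 1), ((m + k).choose k : ℤ) ^ 2 := by
  induction m with
  | zero => simp
  | succ m ih =>
    have h1 := partial21 m (m + 1)
    have h2 : ((m : ℤ) + 1 + 1) * ((2 * (m + 1 + 1)).choose (m + 1 + 1) : ℤ)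
        = 2 * (2 * (m + 1) + 1) * ((2 * (m + 1)).choose (m + 1) : ℤ) := by
      have := congrArg (Nat.cast : ℕ → ℤ) (Pool.Agent.X314.Clausen.cb_rec (m + 1))
      push_cast at this
      exact this
    have h3 : ((2 * (m + 1)).choose (m + 1) : ℤ) = 2 * ((m + (m + 1)).choose (m + 1) : ℤ) := by
      rw [show 2 * (m + 1) = (m + (m + 1)) + 1 by ring, Nat.choose_succ_succ]
      have : (m + (m + 1)).choose m = (m + (m + 1)).choose (m + 1) := by
        rw [Nat.choose_symm_add]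
      rw [this]
      push_cast
      ring
    rw [Finset.sum_range_succ, ih, Finset.sum_range_succ (fun k => ((m + 1 + k).choose k : ℤ) ^ 2)]
    have h4 : ((m + 1 + (m + 1)).choose (m + 1) : ℤ) = ((2 * (m + 1)).choose (m + 1) : ℤ) := by
      rw [two_mul]
    rw [h4]
    push_cast at h1 ⊢
    linear_combination (-4 * ((2 * (m + 1)).choose (m + 1) : ℤ)) * h1
      + (-4 * (∑ k ∈ range (m + 1), ((m + 1 + k).choose k : ℤ) ^ 2
        + ((2 * (m + 1)).choose (m + 1) : ℤ) ^ 2)) * h2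
      + (5 * ((m : ℤ) + 1) * ((2 * (m + 1)).choose (m + 1) : ℤ)
        * (((2 * (m + 1)).choose (m + 1) : ℤ) + 2 * ((m + (m + 1)).choose (m + 1) : ℤ))) * h3

lemma sum21_mod {p : ℕ} (hp : p.Prime) :
    ((p : ℤ) ^ 2) ∣ ∑ k ∈ range p, (21 * (k : ℤ) + 8) * ((2 * k).choose k : ℤ) ^ 3 - 8 * p := by
  have : Fact p.Prime := ⟨hp⟩
  obtain ⟨m, rfl⟩ : ∃ m, p = m + 1 := ⟨p - 1, (Nat.succ_pred_eq_of_pos hp.pos).symm⟩
  rw [sum21]
  have h1 : ((m + 1 : ℕ) : ℤ) ∣ ((2 * (m + 1)).choose (m + 1) : ℤ) - 2 := by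
    have h := Choose.choose_modEq_choose_mod_mul_choose_div (p := m + 1) (n := 2 * (m + 1))
      (k := m + 1)
    rw [Nat.mul_mod_left, Nat.mod_self, Nat.mul_div_cancel _ hp.pos, Nat.div_self hp.pos] at h
    simp only [Nat.choose_self, Nat.choose_one_right, Nat.cast_one, one_mul] at h
    exact h.symm.dvd
  have h2 : ((m + 1 : ℕ) : ℤ) ∣ ∑ k ∈ range (m + 1), ((m + k).choose k : ℤ) ^ 2 - 1 := by
    rw [Finset.sum_range_succ']
    simp only [Nat.choose_zero_right, Nat.cast_one, one_pow, add_sub_cancel_right]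
    apply Finset.dvd_sum
    intro k hk
    rw [Finset.mem_range] at hk
    have h3 : (m + 1) ∣ (m + (k + 1)).choose (k + 1) := by
      have := hp.dvd_choose_add (a := m) (b := k + 1) (by omega) (by omega) (by omega)
      rwa [Nat.choose_symm_add] at this
    have h4 : ((m + 1 : ℕ) : ℤ) ∣ ((m + (k + 1)).choose (k + 1) : ℤ) := by exact_mod_cast h3
    exact Dvd.dvd.mul_left h4 _ |>.trans (by rw [pow_two])
  obtain ⟨c, hc⟩ := h1
  obtain ⟨d, hd⟩ := h2
  have hc' : ((2 * (m + 1)).choose (m + 1) : ℤ) = 2 + ((m + 1 : ℕ) : ℤ) * c := by linarith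
  have hd' : ∑ k ∈ range (m + 1), ((m + k).choose k : ℤ) ^ 2 = 1 + ((m + 1 : ℕ) : ℤ) * d := by
    linarith
  rw [hc', hd']
  refine ⟨4 * (c + 2 * d + ((m + 1 : ℕ) : ℤ) * c * d), ?_⟩
  push_cast
  ring

lemma sum16_mod {p : ℕ} (hp : p.Prime) (h : ℕ) (hh : 2 * h + 1 = p) :
    (p : ℤ) ∣ ∑ k ∈ range p, 16 ^ k * ((2 * k).choose k : ℤ) - (-63) ^ h := by
  have : Fact p.Prime := ⟨hp⟩
  rw [← ZMod.intCast_eq_intCast_iff_dvd_sub, eq_comm]
  push_cast
  have e : ∀ k ∈ range p, (16 : ZMod p) ^ k * (((2 * k).choose k : ℕ) : ZMod p)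
      = if k < h + 1 then (-64) ^ k * ((h.choose k : ℕ) : ZMod p) else 0 := by
    intro k hk
    rw [Finset.mem_range] at hk
    split_ifs with h1
    · rw [Pool.Agent.X314.Cartier.central_eq (R := ZMod p) h hh k (by omega), ← mul_assoc,
        ← mul_pow]
      norm_num
    · have h2 := dvd_cb hp hk (by omega)
      rw [(ZMod.natCast_eq_zero_iff _ _).mpr h2, mul_zero]
  rw [Finset.sum_congr rfl e, ← Finset.sum_filter]
  have e5 : (range p).filter (fun k => k < h + 1) = range (h + 1) := by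
    ext k
    simp only [Finset.mem_filter, Finset.mem_range]
    omega
  rw [e5, show (-63 : ZMod p) = -64 + 1 by norm_num, add_pow]
  simp

/-- `ε p` is the Legendre symbol `(p/7)` for `p` not divisible by `7` -/
def ε (p : ℕ) : ℤ := if p % 7 = 1 ∨ p % 7 = 2 ∨ p % 7 = 4 then 1 else -1

lemma leg {p : ℕ} [hp : Fact p.Prime] (h : ℕ) (hh : 2 * h + 1 = p) (h7 : p ≠ 7) :
    (-7 : ZMod p) ^ h = ((ε p : ℤ) : ZMod p) := by
  have : Fact (Nat.Prime 7) := ⟨by norm_num⟩
  have hp2 : p ≠ 2 := by omega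
  have hm : p % 7 ≠ 0 := by
    intro h0
    have := (Nat.prime_dvd_prime_iff_eq (by norm_num) hp.out).mp (Nat.dvd_of_mod_eq_zero h0)
    omega
  have e1 : legendreSym 7 p = ε p := by
    rw [legendreSym.mod, ε]
    have hlt : p % 7 < 7 := Nat.mod_lt _ (by norm_num)
    have hc : ((p : ℤ) % ((7 : ℕ) : ℤ)) = ((p % 7 : ℕ) : ℤ) := by push_cast; rfl
    rw [hc]
    generalize p % 7 = r at *
    interval_cases r
    · exact absurd rfl hm
    all_goals norm_num
  have e2 := legendreSym.quadratic_reciprocity' (p := p) (q := 7) hp2 (by norm_num)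
  have e3 : legendreSym p (-7) = ε p := by
    have e4 : legendreSym p (-7) = legendreSym p (-1) * legendreSym p 7 := by
      rw [← legendreSym.mul]
      norm_num
    rw [e4, legendreSym.at_neg_one hp2, ZMod.χ₄_eq_neg_one_pow (by omega)]
    rw [e1, show 7 / 2 = 3 by norm_num, pow_mul] at e2
    have hs : (((-1 : ℤ)) ^ (p / 2)) ^ 2 = 1 := by
      rw [← pow_mul, mul_comm, pow_mul]
      norm_num
    have e5 : (((7 : ℕ) : ℤ)) = 7 := by norm_num
    rw [e5] at e2
    linear_combination (-1) * e2 + (-((-1) ^ (p / 2) * legendreSym p 7)) * hs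
  have e5 := legendreSym.eq_pow p (-7)
  rw [e3] at e5
  have e6 : p / 2 = h := by omega
  rw [e6] at e5
  push_cast at e5
  exact e5.symm

/-- For every prime `p ≠ 7`,
`∑_{k<p} (-1)^k (42k+37) a(k) ≡ p (21 (p/7) + 16) (mod p²)`. -/
theorem result (p : ℕ) (hp : p.Prime) (h7 : p ≠ 7) :
    ((p : ℤ) ^ 2) ∣ ∑ k ∈ range p, (-1) ^ k * (42 * (k : ℤ) + 37) * a k
      - p * (21 * (if p % 7 = 1 ∨ p % 7 = 2 ∨ p % 7 = 4 then 1 else -1) + 16) := by
  have : Fact p.Prime := ⟨hp⟩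
  rcases hp.eq_two_or_odd with h2 | h2
  · subst h2
    decide
  obtain ⟨h, hh⟩ : ∃ h, 2 * h + 1 = p := ⟨p / 2, by omega⟩
  have h1 := S_mod hp h hh
  have h3 := sum21_mod hp
  have h4 : (p : ℤ) ∣ 21 * (∑ k ∈ range p, 16 ^ k * ((2 * k).choose k : ℤ) - ε p) := by
    by_cases hp3 : p = 3
    · subst hp3
      exact Dvd.dvd.mul_right (by norm_num) _
    · apply Dvd.dvd.mul_left
      have h5 := sum16_mod hp h hh
      have h6 : (p : ℤ) ∣ (-63) ^ h - ε p := by
        rw [← ZMod.intCast_eq_intCast_iff_dvd_sub, eq_comm]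
        push_cast
        rw [← leg h hh h7, show (-63 : ZMod p) = 3 ^ 2 * (-7) by norm_num, mul_pow, ← pow_mul]
        have h30 : (3 : ZMod p) ≠ 0 := by
          intro h0
          have h4 : ((3 : ℕ) : ZMod p) = 0 := by
            push_cast
            exact h0
          rw [ZMod.natCast_eq_zero_iff] at h4
          exact hp3 ((Nat.prime_dvd_prime_iff_eq hp (by norm_num)).mp h4)
        have h31 := ZMod.pow_card_sub_one_eq_one h30
        rw [show p - 1 = 2 * h by omega] at h31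
        rw [h31, one_mul]
      have := dvd_add h5 h6
      rwa [sub_add_sub_cancel] at this
  have h5 : ((p : ℤ) ^ 2) ∣ p * (21 * (∑ k ∈ range p, 16 ^ k * ((2 * k).choose k : ℤ) - ε p)) := by
    rw [pow_two]
    exact mul_dvd_mul_left _ h4
  have h6 := dvd_add (dvd_add h1 h5) (Dvd.dvd.mul_left h3 2)
  have h7 : ε p = (if p % 7 = 1 ∨ p % 7 = 2 ∨ p % 7 = 4 then 1 else -1) := rfl
  rw [← h7]
  have e : ∀ (S A B e q : ℤ), S - q * (21 * e + 16)
      = S - (21 * (q * A) + 2 * B) + q * (21 * (A - e)) + 2 * (B - 8 * q) := by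
    intros
    ring
  rw [e _ (∑ k ∈ range p, 16 ^ k * ((2 * k).choose k : ℤ))
    (∑ k ∈ range p, (21 * (k : ℤ) + 8) * ((2 * k).choose k : ℤ) ^ 3)]
  exact h6

end Pool.Agent.Results.MP_07dc7c_nt.Weighted
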